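import Mathlib

namespace Pool.Agent.Results.MP_81f70c_co.Yes

universe u

/-- Four distinct points, no three of them on a member of `L`. -/
def Quad {P : Type u} (L : Set (Set P)) (a b c d : P) : Prop :=
  a ≠ b ∧ a ≠ c ∧ a ≠ d ∧ b ≠ c ∧ b ≠ d ∧ c ≠ d ∧ ∀ l ∈ L,
    ¬ (a ∈ l ∧ b ∈ l ∧ c ∈ l) ∧ ¬ (a ∈ l ∧ b ∈ l ∧ d ∈ l) ∧
    ¬ (a ∈ l ∧ c ∈ l ∧ d ∈ l) ∧ ¬ (b ∈ l ∧ c ∈ l ∧ d ∈ l)

/-- The point set `S` with the family of lines `K` is a projective plane. -/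
def IsProjPlane {P : Type u} (S : Set P) (K : Set (Set P)) : Prop :=
  (∀ x ∈ S, ∀ y ∈ S, x ≠ y → ∃! k, k ∈ K ∧ x ∈ k ∧ y ∈ k) ∧
  (∀ k ∈ K, ∀ k' ∈ K, k ≠ k' → ∃! x, x ∈ k ∧ x ∈ k') ∧
  ∃ a ∈ S, ∃ b ∈ S, ∃ c ∈ S, ∃ d ∈ S, Quad K a b c d

/-- Projective rectangles: axioms (A1)-(A6). -/
structure ProjRect (P : Type u) where
  L : Set (Set P)
  D : P
  a1 : ∀ x y, x ≠ y → ∃! l, l ∈ L ∧ x ∈ l ∧ y ∈ l
  a2 : ∃ a b c d, Quad L a b c d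
  a3 : ∀ l ∈ L, ∃ x ∈ l, ∃ y ∈ l, ∃ z ∈ l, x ≠ y ∧ x ≠ z ∧ y ≠ z
  a5 : ∀ s ∈ L, D ∈ s → ∀ l ∈ L, l ≠ s → ∃! x, x ∈ s ∧ x ∈ l
  a6 : ∀ l₁ ∈ L, ∀ l₂ ∈ L, ∀ l₃ ∈ L, ∀ l₄ ∈ L, D ∉ l₁ → D ∉ l₂ → l₁ ≠ l₂ →
    (∃ x, x ∈ l₁ ∧ x ∈ l₂) → l₃ ≠ l₄ →
    ∀ a b c d, a ∈ l₃ → a ∈ l₁ → b ∈ l₃ → b ∈ l₂ → c ∈ l₄ → c ∈ l₁ → d ∈ l₄ → d ∈ l₂ →
      a ≠ b → a ≠ c → a ≠ d → b ≠ c → b ≠ d → c ≠ d → ∃ x, x ∈ l₃ ∧ x ∈ l₄

variable {P : Type u} (R : ProjRect P)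

/-- The lines of a point set `S`: the sets `l ∩ S` with at least two points. -/
def linesOf (S : Set P) : Set (Set P) := {k | ∃ l ∈ R.L, (l ∩ S).Nontrivial ∧ k = l ∩ S}

def IsSubplane (S : Set P) : Prop := IsProjPlane S (linesOf R S)

/-- A plane is a maximal projective subplane. -/
def IsPlane (S : Set P) : Prop := Maximal (IsSubplane R) S

variable {R}

lemma uq {l l' : Set P} (h : l ∈ R.L) (h' : l' ∈ R.L) {x y : P} (hxy : x ≠ y) (a : x ∈ l)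
    (b : y ∈ l) (c : x ∈ l') (d : y ∈ l') : l = l' :=
  (R.a1 x y hxy).unique ⟨h, a, b⟩ ⟨h', c, d⟩

lemma ex {x y : P} (h : x ≠ y) : ∃ l ∈ R.L, x ∈ l ∧ y ∈ l := (R.a1 x y h).exists

lemma third {l : Set P} (h : l ∈ R.L) (x y : P) : ∃ z ∈ l, z ≠ x ∧ z ≠ y := by
  obtain ⟨a, ha, b, hb, c, hc, h1, h2, h3⟩ := R.a3 l h
  by_contra hn
  push Not at hn
  have := hn a ha; have := hn b hb; have := hn c hc
  classical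
  by_cases a = x <;> by_cases b = x <;> by_cases c = x <;> simp_all

lemma sp {s l : Set P} (hs : s ∈ R.L) (hD : R.D ∈ s) (hl : l ∈ R.L) (hl' : R.D ∉ l) :
    ∃ x, x ∈ s ∧ x ∈ l := (R.a5 s hs hD l hl (fun e => hl' (e ▸ hD))).exists

def Ord (R : ProjRect P) (l : Set P) : Prop := l ∈ R.L ∧ R.D ∉ l

def Meet (l k : Set P) : Prop := ∃ x, x ∈ l ∧ x ∈ k

structure Tri (R : ProjRect P) where
  l : Fin 3 → Set P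
  ord : ∀ i, Ord R (l i)
  meet : ∀ i j, Meet (l i) (l j)
  nc : ∀ x, ¬ ∀ i, x ∈ l i

def Tri.C (T : Tri R) (h : Set P) : Prop := Ord R h ∧ ∀ i, Meet h (T.l i)

def Tri.E (T : Tri R) : Set P := {x | x = R.D ∨ ∃ h, T.C h ∧ x ∈ h}

lemma a6' {l₁ l₂ l₃ l₄ : Set P} (h1 : Ord R l₁) (h2 : Ord R l₂) (h3 : l₃ ∈ R.L) (h4 : l₄ ∈ R.L)
    (m : Meet l₁ l₂) {a b c d : P} (a3 : a ∈ l₃) (a1 : a ∈ l₁) (b3 : b ∈ l₃) (b2 : b ∈ l₂)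
    (c4 : c ∈ l₄) (c1 : c ∈ l₁) (d4 : d ∈ l₄) (d2 : d ∈ l₂) (ab : a ≠ b) (cd : c ≠ d) :
    Meet l₃ l₄ := by
  by_contra hn
  have k : ∀ x, x ∈ l₃ → x ∈ l₄ → False := fun x p q => hn ⟨x, p, q⟩
  by_cases e : l₁ = l₂
  · subst e
    have := uq h3 h1.1 ab a3 b3 a1 b2
    exact k c (this ▸ c1) c4
  refine hn (R.a6 l₁ h1.1 l₂ h2.1 l₃ h3 l₄ h4 h1.2 h2.2 e m (fun e => k a a3 (e ▸ a3)) a b c d
    a3 a1 b3 b2 c4 c1 d4 d2 ab ?_ ?_ ?_ ?_ cd)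
  all_goals intro e; subst e
  · exact k _ a3 c4
  · exact k _ a3 d4
  · exact k _ b3 c4
  · exact k _ b3 d4

lemma Tri.self (T : Tri R) (i : Fin 3) : T.C (T.l i) := ⟨T.ord i, T.meet i⟩

lemma Tri.inter (T : Tri R) {h k : Set P} (hh : T.C h) (hk : T.C k) : Meet h k := by
  choose f f1 f2 using hh.2
  choose g g1 g2 using hk.2
  have A := fun i j => a6' (T.ord i) (T.ord j) hh.1.1 hk.1.1 (T.meet i j) (f1 i) (f2 i) (f1 j)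
    (f2 j) (g1 i) (g2 i) (g1 j) (g2 j)
  by_contra hn
  have B : ∀ i j, f i = f j ∨ g i = g j := fun i j => by
    by_contra hc; push Not at hc; exact hn (A i j hc.1 hc.2)
  have nf : ¬ (f 0 = f 1 ∧ f 0 = f 2) := fun e => T.nc (f 0) (fun i => by
    fin_cases i
    · exact f2 0
    · exact e.1 ▸ f2 1
    · exact e.2 ▸ f2 2)
  have ng : ¬ (g 0 = g 1 ∧ g 0 = g 2) := fun e => T.nc (g 0) (fun i => by
    fin_cases i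
    · exact g2 0
    · exact e.1 ▸ g2 1
    · exact e.2 ▸ g2 2)
  have := B 0 1; have := B 0 2; have := B 1 2
  grind

lemma Tri.closed (T : Tri R) {k : Set P} (hk : Ord R k) {q q' : P} (ne : q ≠ q') (a : q ∈ k)
    (b : q' ∈ k) (c : q ∈ T.E) (d : q' ∈ T.E) : T.C k := by
  obtain rfl | ⟨l, hl, ql⟩ := c
  · exact absurd a hk.2
  obtain rfl | ⟨l', hl', ql'⟩ := d
  · exact absurd b hk.2
  obtain ⟨y, y1, y2⟩ := T.inter hl hl'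
  by_cases e1 : q' ∈ l
  · rwa [uq hk.1 hl.1.1 ne a b ql e1]
  by_cases e2 : q ∈ l'
  · rwa [uq hk.1 hl'.1.1 ne a b e2 ql']
  have ll : ∀ z, z ∈ l → z ∈ l' → z = y := fun z z1 z2 => by
    by_contra hz
    exact e1 (uq hl.1.1 hl'.1.1 hz z1 y1 z2 y2 ▸ ql')
  have s1 : ∀ h, T.C h → y ∉ h → Meet k h := by
    intro h hh hy
    obtain ⟨e, e1, e2⟩ := T.inter hh hl
    obtain ⟨e', e3, e4⟩ := T.inter hh hl'
    exact a6' hl.1 hl'.1 hk.1 hh.1.1 ⟨y, y1, y2⟩ a ql b ql' e1 e2 e3 e4 ne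
      (fun h => hy (ll e e2 (h ▸ e4) ▸ e1))
  refine ⟨hk, fun i => ?_⟩
  by_cases hy : y ∈ T.l i
  swap
  · exact s1 _ (T.self i) hy
  obtain ⟨j, hj⟩ := not_forall.1 (T.nc y)
  obtain ⟨r, r1, r2⟩ := s1 _ (T.self j) hj
  obtain ⟨f, f1, f2⟩ := T.meet i j
  have yf : y ≠ f := fun e => hj (e ▸ f2)
  by_cases e : q = r
  · exact a6' hl'.1 (T.ord j) hk.1 (T.ord i).1 (hl'.2 j) b ql' r1 r2 hy y2 f1 f2
      (e ▸ ne.symm) yf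
  · exact a6' hl.1 (T.ord j) hk.1 (T.ord i).1 (hl.2 j) a ql r1 r2 hy y1 f1 f2 e yf

lemma Tri.sub (T : Tri R) {h : Set P} (hh : T.C h) : h ⊆ T.E := fun _ hx => Or.inr ⟨h, hh, hx⟩

lemma Tri.eq_of (T T' : Tri R) (h : ∀ i, T.C (T'.l i)) : T'.E = T.E := by
  have : ∀ k, T'.C k ↔ T.C k := by
    intro k
    refine ⟨fun hk => ?_, fun hk => ⟨hk.1, fun i => T.inter hk (h i)⟩⟩
    choose f f1 f2 using hk.2
    by_cases e : ∀ i, f 0 = f i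
    · exact absurd (fun i => e i ▸ f2 i) (T'.nc (f 0))
    · obtain ⟨i, hi⟩ := not_forall.1 e
      exact T.closed hk.1 hi (f1 0) (f1 i) (T.sub (h 0) (f2 0)) (T.sub (h i) (f2 i))
  ext x; simp only [Tri.E, Set.mem_setOf_eq, this]

lemma Tri.subplane (T : Tri R) : IsSubplane R T.E := by
  refine ⟨fun x hx y hy hxy => ?_, ?_, ?_⟩
  · obtain ⟨l, hl, a, b⟩ := ex (R := R) hxy
    refine ⟨l ∩ T.E, ⟨⟨l, hl, ⟨x, ⟨a, hx⟩, y, ⟨b, hy⟩, hxy⟩, rfl⟩, ⟨a, hx⟩, ⟨b, hy⟩⟩, ?_⟩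
    rintro _ ⟨⟨l', hl', -, rfl⟩, c, d⟩
    rw [uq hl hl' hxy a b c.1 d.1]
  · rintro _ ⟨l, hl, ⟨x, hx, y, hy, hxy⟩, rfl⟩ _ ⟨l', hl', ⟨x', hx', y', hy', hxy'⟩, rfl⟩ hne
    have : ∃ z, z ∈ l ∩ T.E ∧ z ∈ l' ∩ T.E := by
      by_cases d : R.D ∈ l <;> by_cases d' : R.D ∈ l'
      · exact ⟨R.D, ⟨d, Or.inl rfl⟩, ⟨d', Or.inl rfl⟩⟩
      · obtain ⟨z, z1, z2⟩ := sp hl d hl' d'
        have := T.sub (T.closed ⟨hl', d'⟩ hxy' hx'.1 hy'.1 hx'.2 hy'.2) z2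
        exact ⟨z, ⟨z1, this⟩, ⟨z2, this⟩⟩
      · obtain ⟨z, z1, z2⟩ := sp hl' d' hl d
        have := T.sub (T.closed ⟨hl, d⟩ hxy hx.1 hy.1 hx.2 hy.2) z2
        exact ⟨z, ⟨z2, this⟩, ⟨z1, this⟩⟩
      · have c1 := T.closed ⟨hl, d⟩ hxy hx.1 hy.1 hx.2 hy.2
        obtain ⟨z, z1, z2⟩ := T.inter c1 (T.closed ⟨hl', d'⟩ hxy' hx'.1 hy'.1 hx'.2 hy'.2)
        exact ⟨z, ⟨z1, T.sub c1 z1⟩, ⟨z2, T.sub c1 z1⟩⟩
    obtain ⟨z, z1, z2⟩ := this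
    refine ⟨z, ⟨z1, z2⟩, fun w hw => ?_⟩
    by_contra hc
    exact hne (by rw [uq hl hl' hc hw.1.1 z1.1 hw.2.1 z2.1])
  · obtain ⟨a, a0, a1⟩ := T.meet 0 1
    obtain ⟨b, b0, b2⟩ := T.meet 0 2
    obtain ⟨c, c1, c2⟩ := T.meet 1 2
    have n : ∀ x, x ∈ T.l 0 → x ∈ T.l 1 → x ∈ T.l 2 → False := fun x p q r =>
      T.nc x (fun i => by fin_cases i <;> assumption)
    have ab : a ≠ b := fun e => n a a0 a1 (e ▸ b2)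
    have ac : a ≠ c := fun e => n a a0 a1 (e ▸ c2)
    have bc : b ≠ c := fun e => n b b0 (e ▸ c1) b2
    refine ⟨a, T.sub (T.self 0) a0, b, T.sub (T.self 0) b0, c, T.sub (T.self 1) c1, R.D,
      Or.inl rfl, ab, ac, fun e => (T.ord 0).2 (e ▸ a0), bc, fun e => (T.ord 0).2 (e ▸ b0),
      fun e => (T.ord 1).2 (e ▸ c1), ?_⟩
    rintro _ ⟨l, hl, -, rfl⟩
    refine ⟨fun h => ?_, fun h => ?_, fun h => ?_, fun h => ?_⟩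
    · exact n c (uq hl (T.ord 0).1 ab h.1.1 h.2.1.1 a0 b0 ▸ h.2.2.1) c1 c2
    · exact (T.ord 0).2 (uq hl (T.ord 0).1 ab h.1.1 h.2.1.1 a0 b0 ▸ h.2.2.1)
    · exact (T.ord 1).2 (uq hl (T.ord 1).1 ac h.1.1 h.2.1.1 a1 c1 ▸ h.2.2.1)
    · exact (T.ord 2).2 (uq hl (T.ord 2).1 bc h.1.1 h.2.1.1 b2 c2 ▸ h.2.2.1)

lemma sub_meet {S : Set P} (hS : IsSubplane R S) {l k : Set P} (hl : l ∈ R.L) (hk : k ∈ R.L)
    (a : (l ∩ S).Nontrivial) (b : (k ∩ S).Nontrivial) : Meet l k := by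
  by_cases e : l ∩ S = k ∩ S
  · obtain ⟨x, hx⟩ := a.nonempty
    exact ⟨x, hx.1, (e ▸ hx : x ∈ k ∩ S).1⟩
  · obtain ⟨x, h1, h2⟩ := (hS.2.1 _ ⟨l, hl, a, rfl⟩ _ ⟨k, hk, b, rfl⟩ e).exists
    exact ⟨x, h1.1, h2.1⟩

lemma mkTri {S : Set P} (hS : IsSubplane R S) {l0 l1 l2 : Set P} (h0 : Ord R l0) (h1 : Ord R l1)
    (h2 : Ord R l2) (n0 : (l0 ∩ S).Nontrivial) (n1 : (l1 ∩ S).Nontrivial)
    (n2 : (l2 ∩ S).Nontrivial) (nc : ∀ x, x ∈ l0 → x ∈ l1 → x ∉ l2) : ∃ T : Tri R, S ⊆ T.E := by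
  have o : ∀ i, Ord R (![l0, l1, l2] i) := fun i => by fin_cases i <;> assumption
  have n : ∀ i, (![l0, l1, l2] i ∩ S).Nontrivial := fun i => by fin_cases i <;> assumption
  let T : Tri R := ⟨![l0, l1, l2], o, fun i j => sub_meet hS (o i).1 (o j).1 (n i) (n j),
    fun x h => nc x (h 0) (h 1) (h 2)⟩
  refine ⟨T, fun x hx => ?_⟩
  by_cases e : x = R.D
  · exact Or.inl e
  by_cases e0 : x ∈ l0
  · exact T.sub (T.self 0) e0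
  obtain ⟨y, hy, y', hy', hne⟩ := n0
  have st : ∀ y ∈ l0 ∩ S, ∀ k ∈ R.L, x ∈ k → y ∈ k → R.D ∉ k → x ∈ T.E := by
    intro y hy k hk a b c
    refine T.sub ⟨⟨hk, c⟩, fun i => sub_meet hS hk (o i).1 ?_ (n i)⟩ a
    exact ⟨x, ⟨a, hx⟩, y, ⟨b, hy.2⟩, fun e => e0 (e ▸ hy.1)⟩
  obtain ⟨k, hk, a, b⟩ := ex (R := R) (show x ≠ y from fun e => e0 (e ▸ hy.1))
  obtain ⟨k', hk', a', b'⟩ := ex (R := R) (show x ≠ y' from fun e => e0 (e ▸ hy'.1))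
  by_cases d : R.D ∈ k
  · by_cases d' : R.D ∈ k'
    · have := uq hk hk' e a d a' d'
      subst this
      exact absurd (uq hk h0.1 hne b b' hy.1 hy'.1 ▸ a) e0
    · exact st y' hy' k' hk' a' b' d'
  · exact st y hy k hk a b d

def Nc (R : ProjRect P) (a b c : P) : Prop := ∀ l ∈ R.L, a ∈ l → b ∈ l → c ∉ l

lemma quad_step {S : Set P} (hS : IsSubplane R S) {a b c d : P} (ha : a ∈ S) (hb : b ∈ S)
    (hc : c ∈ S) (hd : d ∈ S) (ab : a ≠ b) (ac : a ≠ c) (bc : b ≠ c) (bd : b ≠ d)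
    (abc : Nc R a b c) (abd : Nc R a b d) (bcd : Nc R b c d)
    (h1 : Nc R a b R.D) (h2 : Nc R a c R.D) : ∃ T : Tri R, S ⊆ T.E := by
  obtain ⟨l0, o0, a0, b0⟩ := ex (R := R) ab
  obtain ⟨l1, o1, a1, c1⟩ := ex (R := R) ac
  obtain ⟨l2, o2, b2, c2⟩ := ex (R := R) bc
  obtain ⟨l3, o3, b3, d3⟩ := ex (R := R) bd
  have v : ∀ x, x ∈ l0 → x ∈ l1 → x = a := fun x p q => by
    by_contra hx
    exact abc l0 o0 a0 b0 (uq o1 o0 hx q a1 p a0 ▸ c1)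
  have n0 : (l0 ∩ S).Nontrivial := ⟨a, ⟨a0, ha⟩, b, ⟨b0, hb⟩, ab⟩
  have n1 : (l1 ∩ S).Nontrivial := ⟨a, ⟨a1, ha⟩, c, ⟨c1, hc⟩, ac⟩
  by_cases e2 : R.D ∈ l2
  · by_cases e3 : R.D ∈ l3
    · have : b ≠ R.D := fun e => h1 l0 o0 a0 b0 (e ▸ b0)
      exact absurd (uq o3 o2 this b3 e3 b2 e2 ▸ d3) (bcd l2 o2 b2 c2)
    · exact mkTri hS ⟨o0, h1 l0 o0 a0 b0⟩ ⟨o1, h2 l1 o1 a1 c1⟩ ⟨o3, e3⟩ n0 n1
        ⟨b, ⟨b3, hb⟩, d, ⟨d3, hd⟩, bd⟩ (fun x p q r => abd l3 o3 (v x p q ▸ r) b3 d3)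
  · exact mkTri hS ⟨o0, h1 l0 o0 a0 b0⟩ ⟨o1, h2 l1 o1 a1 c1⟩ ⟨o2, e2⟩ n0 n1
      ⟨b, ⟨b2, hb⟩, c, ⟨c2, hc⟩, bc⟩ (fun x p q r => abc l2 o2 (v x p q ▸ r) b2 c2)

lemma sub_tri {S : Set P} (hS : IsSubplane R S) : ∃ T : Tri R, S ⊆ T.E := by
  obtain ⟨a, ha, b, hb, c, hc, d, hd, ab, ac, ad, bc, bd, cd, q⟩ := hS.2.2
  have q' : ∀ l ∈ R.L, ∀ x y, x ∈ l → y ∈ l → x ∈ S → y ∈ S → x ≠ y → _ :=
    fun l hl x y p1 p2 p3 p4 p5 => q (l ∩ S) ⟨l, hl, ⟨x, ⟨p1, p3⟩, y, ⟨p2, p4⟩, p5⟩, rfl⟩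
  have abc : Nc R a b c := fun l hl p1 p2 p3 =>
    (q' l hl a b p1 p2 ha hb ab).1 ⟨⟨p1, ha⟩, ⟨p2, hb⟩, ⟨p3, hc⟩⟩
  have abd : Nc R a b d := fun l hl p1 p2 p3 =>
    (q' l hl a b p1 p2 ha hb ab).2.1 ⟨⟨p1, ha⟩, ⟨p2, hb⟩, ⟨p3, hd⟩⟩
  have acd : Nc R a c d := fun l hl p1 p2 p3 =>
    (q' l hl a c p1 p2 ha hc ac).2.2.1 ⟨⟨p1, ha⟩, ⟨p2, hc⟩, ⟨p3, hd⟩⟩
  have bcd : Nc R b c d := fun l hl p1 p2 p3 =>
    (q' l hl b c p1 p2 hb hc bc).2.2.2 ⟨⟨p1, hb⟩, ⟨p2, hc⟩, ⟨p3, hd⟩⟩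
  have s1 : ∀ {x y z}, Nc R x y z → Nc R x z y := fun h l hl p1 p2 p3 => h l hl p1 p3 p2
  have s2 : ∀ {x y z}, Nc R x y z → Nc R y x z := fun h l hl p1 p2 p3 => h l hl p2 p1 p3
  by_cases e : a = R.D
  · exact quad_step hS hb hc hd ha bc bd cd ac.symm bcd (s1 (s2 abc)) (s1 (s2 acd))
      (e ▸ s1 (s2 abc)) (e ▸ s1 (s2 abd))
  have two : ∀ {x y}, Nc R a x y → Nc R a x R.D ∨ Nc R a y R.D := by
    intro x y h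
    by_contra hc
    simp only [Nc, not_or, not_forall, not_not] at hc
    obtain ⟨⟨l, hl, p1, p2, p3⟩, ⟨k, hk, r1, r2, r3⟩⟩ := hc
    exact h l hl p1 p2 (uq hk hl e r1 r3 p1 p3 ▸ r2)
  by_cases e1 : Nc R a b R.D
  · rcases two acd with h | h
    · exact quad_step hS ha hb hc hd ab ac bc bd abc abd bcd e1 h
    · exact quad_step hS ha hb hd hc ab ad bd bc abd abc (s1 bcd) e1 h
  · exact quad_step hS ha hc hd hb ac ad cd bc.symm acd (s1 abc) (s1 (s2 bcd))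
      ((two abc).resolve_left e1) ((two abd).resolve_left e1)

lemma Tri.plane (T : Tri R) : IsPlane R T.E := by
  refine ⟨T.subplane, fun S hS h => ?_⟩
  obtain ⟨T', hT'⟩ := sub_tri hS
  have : T.E = T'.E := T'.eq_of T (fun i => by
    obtain ⟨x, hx, y, hy, -, -, hxy, -⟩ := R.a3 _ (T.ord i).1
    exact T'.closed (T.ord i) hxy hx hy (hT' (h (T.sub (T.self i) hx)))
      (hT' (h (T.sub (T.self i) hy))))
  exact this ▸ hT'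

lemma ordl {s : Set P} (hs : s ∈ R.L) (hD : R.D ∈ s) {p x : P} (ps : p ∈ s) (pD : p ≠ R.D)
    (xs : x ∉ s) : ∃ l, Ord R l ∧ p ∈ l ∧ x ∈ l ∧ ∀ z ∈ l, z ∈ s → z = p := by
  obtain ⟨l, hl, a, b⟩ := ex (R := R) (show p ≠ x from fun e => xs (e ▸ ps))
  have : ∀ z ∈ l, z ∈ s → z = p := fun z h1 h2 => by
    by_contra hc
    exact xs (uq hl hs hc h1 a h2 ps ▸ b)
  exact ⟨l, ⟨hl, fun h => pD (this _ h hD).symm⟩, a, b, this⟩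

lemma tri_at {s : Set P} (hs : s ∈ R.L) (hD : R.D ∈ s) {p p' y : P} (ps : p ∈ s) (pD : p ≠ R.D)
    (ps' : p' ∈ s) (pD' : p' ≠ R.D) (pp : p ≠ p') (ys : y ∉ s) :
    ∃ T : Tri R, p ∈ T.E ∧ p' ∈ T.E ∧ y ∈ T.E ∧
      ∀ T' : Tri R, p ∈ T'.E → p' ∈ T'.E → y ∈ T'.E → T.E = T'.E := by
  obtain ⟨a, oa, pa, ya, ha⟩ := ordl hs hD ps pD ys
  obtain ⟨b, ob, pb, yb, hb⟩ := ordl hs hD ps' pD' ys
  obtain ⟨q, qa, qy, qp⟩ := third oa.1 y p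
  have qs : q ∉ s := fun h => qp (ha q qa h)
  obtain ⟨c, oc, pc, qc, hc⟩ := ordl hs hD ps' pD' qs
  have ab : ∀ x, x ∈ a → x ∈ b → x = y := fun x h1 h2 => by
    by_contra hx
    exact pp (hb p (uq oa.1 ob.1 hx h1 ya h2 yb ▸ pa) ps)
  have yp : p ≠ y := fun e => ys (e ▸ ps)
  have yp' : p' ≠ y := fun e => ys (e ▸ ps')
  let T : Tri R := ⟨![a, b, c], fun i => by fin_cases i <;> assumption, fun i j => by
    fin_cases i <;> fin_cases j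
    exacts [⟨y, ya, ya⟩, ⟨y, ya, yb⟩, ⟨q, qa, qc⟩, ⟨y, yb, ya⟩, ⟨y, yb, yb⟩, ⟨p', pb, pc⟩,
      ⟨q, qc, qa⟩, ⟨p', pc, pb⟩, ⟨q, qc, qc⟩], fun x h => by
    have h2 : y ∈ c := ab x (h 0) (h 1) ▸ h 2
    exact qy (ab q qa (uq oc.1 ob.1 yp' pc h2 pb yb ▸ qc))⟩
  refine ⟨T, T.sub (T.self 0) pa, T.sub (T.self 1) pb, T.sub (T.self 0) ya,
    fun T' h1 h2 h3 => T'.eq_of T (fun i => ?_)⟩
  have ca := T'.closed oa yp pa ya h1 h3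
  fin_cases i
  · exact ca
  · exact T'.closed ob yp' pb yb h2 h3
  · exact T'.closed oc (show p' ≠ q from fun e => qs (e ▸ ps')) pc qc h2 (T'.sub ca qa)

lemma Tri.off (T : Tri R) {s : Set P} (hs : s ∈ R.L) (hD : R.D ∈ s) : ∃ x ∈ T.E, x ∉ s := by
  obtain ⟨x, hx, y, hy, -, -, hxy, -⟩ := R.a3 _ (T.ord 0).1
  by_contra hc
  push Not at hc
  exact (T.ord 0).2 (uq hs (T.ord 0).1 hxy (hc x (T.sub (T.self 0) hx))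
    (hc y (T.sub (T.self 0) hy)) hx hy ▸ hD)

lemma desarg (T T' : Tri R) {s : Set P} (hs : s ∈ R.L) (hD : R.D ∈ s) {p p' : P} (ps : p ∈ s)
    (pD : p ≠ R.D) (ps' : p' ∈ s) (pD' : p' ≠ R.D) (pp : p ≠ p') (pE : p ∈ T.E) (pE' : p' ∈ T.E)
    (pF : p ∈ T'.E) (pF' : p' ∈ T'.E) (ne : T.E ≠ T'.E) : s ∩ T.E ⊆ s ∩ T'.E := by
  have I : ∀ y, y ∈ T.E → y ∈ T'.E → y ∈ s := fun y h1 h2 => by
    by_contra ys
    obtain ⟨U, -, -, -, hU⟩ := tri_at hs hD ps pD ps' pD' pp ys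
    exact ne ((hU T pE pE' h1).symm.trans (hU T' pF pF' h2))
  rintro r ⟨rs, rE⟩
  refine ⟨rs, ?_⟩
  by_cases rD : r = R.D
  · exact Or.inl rD
  by_cases rp : r = p
  · exact rp ▸ pF
  by_cases rp' : r = p'
  · exact rp' ▸ pF'
  have ns : ∀ {x y : P}, x ∈ s → y ∉ s → x ≠ y := fun h1 h2 e => h2 (e ▸ h1)
  have nE : ∀ {x y : P}, x ∈ T.E → y ∉ T.E → x ≠ y := fun h1 h2 e => h2 (e ▸ h1)
  obtain ⟨x, xE, xs⟩ := T.off hs hD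
  obtain ⟨a, oa, pa, xa, ha⟩ := ordl hs hD ps pD xs
  obtain ⟨a', oa', pa', xa', ha'⟩ := ordl hs hD ps' pD' xs
  have ca := T.closed oa (ns ps xs) pa xa pE xE
  have ca' := T.closed oa' (ns ps' xs) pa' xa' pE' xE
  obtain ⟨v, va, vx, vp⟩ := third oa.1 x p
  have vs : v ∉ s := fun h => vp (ha v va h)
  have vE := T.sub ca va
  obtain ⟨c, oc, rc, vc, hc⟩ := ordl hs hD rs rD vs
  have cc := T.closed oc (ns rs vs) rc vc rE vE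
  obtain ⟨v', vc', va'⟩ := T.inter cc ca'
  have vE' := T.sub cc vc'
  have vs' : v' ∉ s := fun h => rp' ((hc v' vc' h).symm.trans (ha' v' va' h))
  have vv : v ≠ v' := fun e => pp (ha' p (uq oa.1 oa'.1 vx va xa (e ▸ va') xa' ▸ pa) ps)
  have vD' : v' ≠ R.D := (ns hD vs').symm
  obtain ⟨t, ht, vt, Dt⟩ := ex (R := R) vD'
  obtain ⟨u, ut, ul⟩ := sp ht Dt (T'.ord 0).1 (T'.ord 0).2
  have uF := T'.sub (T'.self 0) ul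
  have uD : u ≠ R.D := fun e => (T'.ord 0).2 (e ▸ ul)
  have us : u ∉ s := fun h => vs' (uq ht hs uD ut Dt h hD ▸ vt)
  have uE : u ∉ T.E := fun h => us (I u h uF)
  have vt' : v ∉ t := fun h => oc.2 (uq ht oc.1 vv h vt vc vc' ▸ Dt)
  obtain ⟨g, og, ug, vg, -⟩ := ordl ht Dt ut uD vt'
  obtain ⟨o, os, og'⟩ := sp hs hD og.1 og.2
  have oD : o ≠ R.D := fun e => og.2 (e ▸ og')
  have oE : o ∉ T.E := fun h => uE (T.sub (T.closed og (ns os vs) og' vg h vE) ug)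
  obtain ⟨b, ob, pb, ub, hb⟩ := ordl hs hD ps pD us
  have cb := T'.closed ob (ns ps us) pb ub pF uF
  obtain ⟨k, ok, ok', xk, hk⟩ := ordl hs hD os oD xs
  obtain ⟨z, zb, zk⟩ := a6' oa og ob.1 ok.1 ⟨v, va, vg⟩ pb pa ub ug xk xa ok' og' (ns ps us)
    (nE xE oE)
  have zF := T'.sub cb zb
  have zs : z ∉ s := fun h => oE ((hk z zk h).symm.trans (hb z zb h) ▸ pE)
  obtain ⟨b', ob', pb', zb', hb'⟩ := ordl hs hD ps' pD' zs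
  have cb' := T'.closed ob' (ns ps' zs) pb' zb' pF' zF
  obtain ⟨g', og2, og3, vg', hg'⟩ := ordl hs hD os oD vs'
  obtain ⟨u', ub', ug'⟩ := a6' oa' ok ob'.1 og2.1 ⟨x, xa', xk⟩ pb' pa' zb' zk vg' va' og3 ok'
    (ns ps' zs) (nE vE' oE)
  have uF' := T'.sub cb' ub'
  have us' : u' ∉ s := fun h => oE ((hg' u' ug' h).symm.trans (hb' u' ub' h) ▸ pE')
  have uE' : u' ∉ T.E := fun h => us' (I u' h uF')
  have ut' : u' ∉ t := fun h => og2.2 (uq ht og2.1 (nE vE' uE') vt h vg' ug' ▸ Dt)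
  obtain ⟨m, om, um, um', -⟩ := ordl ht Dt ut uD ut'
  have uu : u ≠ u' := fun e => ut' (e ▸ ut)
  obtain ⟨r', r1, r2⟩ := a6' og og2 oc.1 om.1 ⟨o, og', og3⟩ vc vg vc' vg' um ug um' ug' vv uu
  have rF := T'.sub (T'.closed om uu um um' uF uF') r2
  exact hc r' r1 (I r' (T.sub cc r1) rF) ▸ rF

theorem result (P : Type u) (R : ProjRect P) (hR : ¬ IsProjPlane Set.univ R.L)
    (π : Set P) (hπ : IsPlane R π) (s : Set P) (hs : s ∈ R.L) (hD : R.D ∈ s) :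
    ∃ π', IsPlane R π' ∧ π' ≠ π ∧ s ∩ π' = s ∩ π ∧ s ∩ π ∈ linesOf R π' := by
  obtain ⟨T, hT⟩ := sub_tri hπ.1
  obtain rfl : π = T.E := hπ.eq_of_le T.subplane hT
  have hz : ∃ z, z ∉ T.E ∧ z ∉ s := by
    have : ∃ z, z ∉ T.E := by
      by_contra hc
      push Not at hc
      have e : T.E = Set.univ := Set.eq_univ_of_forall hc
      have h := T.subplane
      rw [IsSubplane, e] at h
      have : linesOf R Set.univ = R.L := by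
        ext k
        simp only [linesOf, Set.inter_univ, Set.mem_setOf_eq]
        refine ⟨fun ⟨l, hl, _, e⟩ => e ▸ hl, fun hk => ⟨k, hk, ?_, rfl⟩⟩
        obtain ⟨x, hx, y, hy, -, -, hxy, -⟩ := R.a3 _ hk
        exact ⟨x, hx, y, hy, hxy⟩
      exact hR (this ▸ h)
    obtain ⟨z, hz⟩ := this
    by_cases zs : z ∈ s
    · obtain ⟨x, xE, xs⟩ := T.off hs hD
      obtain ⟨l, ol, zl, xl, hl⟩ := ordl hs hD zs (fun e => hz (Or.inl e)) xs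
      obtain ⟨w, wl, wx, wz⟩ := third ol.1 x z
      exact ⟨w, fun h => hz (T.sub (T.closed ol wx wl xl h xE) zl), fun h => wz (hl w wl h)⟩
    · exact ⟨z, hz, zs⟩
  obtain ⟨z, zE, zs⟩ := hz
  choose f f1 f2 using fun i => sp hs hD (T.ord i).1 (T.ord i).2
  obtain ⟨i, hi⟩ : ∃ i, f 0 ≠ f i := by
    by_contra hc
    push Not at hc
    exact T.nc (f 0) (fun i => hc i ▸ f2 i)
  have fD : ∀ i, f i ≠ R.D := fun i e => (T.ord i).2 (e ▸ f2 i)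
  have fE : ∀ i, f i ∈ T.E := fun i => T.sub (T.self i) (f2 i)
  obtain ⟨U, u1, u2, u3, -⟩ := tri_at hs hD (f1 0) (fD 0) (f1 i) (fD i) hi zs
  have ne : U.E ≠ T.E := fun e => zE (e ▸ u3)
  have e : s ∩ U.E = s ∩ T.E := Set.Subset.antisymm
    (desarg U T hs hD (f1 0) (fD 0) (f1 i) (fD i) hi u1 u2 (fE 0) (fE i) ne)
    (desarg T U hs hD (f1 0) (fD 0) (f1 i) (fD i) hi (fE 0) (fE i) u1 u2 ne.symm)
  exact ⟨U.E, U.plane, ne, e, s, hs, ⟨f 0, ⟨f1 0, u1⟩, f i, ⟨f1 i, u2⟩, hi⟩, e.symm⟩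

end Pool.Agent.Results.MP_81f70c_co.Yes
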